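import Mathlib
import Pool.Agent.Y748.SR.Stm2

/-!
The gap probability of the sine process is smooth.
-/

set_option autoImplicit false

open Finset Filter Topology MeasureTheory Matrix
open scoped ComplexOrder BigOperators Pointwise

namespace Pool.Agent.Y185.SR

open Pool.Agent.Y748.SR

noncomputable section

section had

theorem det_zero_of_diag {α : Type*} [Fintype α] [DecidableEq α] (M : Matrix α α ℂ)
    (hM : M.PosSemidef) (i : α) (hi : M i i = 0) : M.det = 0 := by
  rw [← Matrix.exists_mulVec_eq_zero_iff]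
  refine ⟨Pi.single i 1, ?_, ?_⟩
  · intro h
    have := congrFun h i
    simp at this
  · rw [← hM.dotProduct_mulVec_zero_iff]
    simp only [mulVec_single_one]
    have : star (Pi.single i (1 : ℂ) : α → ℂ) = Pi.single i (1 : ℂ) := by
      ext j
      by_cases h : j = i
      · subst h; simp
      · simp [h]
    rw [this, single_one_dotProduct]
    exact hi

theorem det_le_diag (n : ℕ) : ∀ A : Matrix (Fin n) (Fin n) ℂ, A.PosSemidef →
    A.det ≤ ∏ i, A i i := by
  induction n with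
  | zero => intro A _; simp
  | succ n ih =>
    intro A hA
    let e : Fin n ⊕ Fin 1 ≃ Fin (n + 1) := finSumFinEquiv
    have hM : (A.submatrix e e).PosSemidef := hA.submatrix _
    have hdet : A.det = (A.submatrix e e).det := (Matrix.det_submatrix_equiv_self e A).symm
    have hprod : ∏ i, A i i = ∏ i, (A.submatrix e e) i i :=
      (Equiv.prod_comp e (fun i => A i i)).symm
    rw [hdet, hprod]
    generalize A.submatrix e e = M at hM
    have hd0 : ∀ i, 0 ≤ M i i := fun i => hM.diag_nonneg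
    by_cases h0 : M (Sum.inr 0) (Sum.inr 0) = 0
    · rw [det_zero_of_diag M hM _ h0]
      exact Finset.prod_nonneg (fun i _ => hd0 i)
    · have hpos : 0 < M (Sum.inr 0) (Sum.inr 0) := lt_of_le_of_ne (hd0 _) (Ne.symm h0)
      have hM22 : M.toBlocks₂₂ = Matrix.of (fun _ _ => M (Sum.inr 0) (Sum.inr 0)) := by
        ext i j
        fin_cases i
        fin_cases j
        rfl
      have hM22' : M.toBlocks₂₂ = Matrix.diagonal (fun _ => M (Sum.inr 0) (Sum.inr 0)) := by
        ext i j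
        fin_cases i
        fin_cases j
        simp [toBlocks₂₂]
      have hpd : M.toBlocks₂₂.PosDef := by
        rw [hM22']
        exact Matrix.PosDef.diagonal (fun _ => hpos)
      have hinvt : IsUnit M.toBlocks₂₂ := hpd.isUnit
      let _ : Invertible M.toBlocks₂₂ := hinvt.invertible
      have hM21 : M.toBlocks₂₁ = M.toBlocks₁₂ᴴ := by
        ext i j
        exact (hM.isHermitian.apply _ _).symm
      have hMb : M = fromBlocks M.toBlocks₁₁ M.toBlocks₁₂ M.toBlocks₁₂ᴴ M.toBlocks₂₂ := by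
        rw [← hM21, fromBlocks_toBlocks]
      have hS : (M.toBlocks₁₁ - M.toBlocks₁₂ * (M.toBlocks₂₂)⁻¹ * M.toBlocks₁₂ᴴ).PosSemidef := by
        rw [← Matrix.PosDef.fromBlocks₂₂ _ _ hpd, ← hMb]
        exact hM
      have hE : (M.toBlocks₁₂ * (M.toBlocks₂₂)⁻¹ * M.toBlocks₁₂ᴴ).PosSemidef :=
        hpd.inv.posSemidef.mul_mul_conjTranspose_same _
      have hdet2 : M.det = M (Sum.inr 0) (Sum.inr 0) *
          (M.toBlocks₁₁ - M.toBlocks₁₂ * (M.toBlocks₂₂)⁻¹ * M.toBlocks₁₂ᴴ).det := by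
        have h1 := Matrix.det_fromBlocks₂₂ M.toBlocks₁₁ M.toBlocks₁₂ M.toBlocks₁₂ᴴ M.toBlocks₂₂
        rw [← hMb] at h1
        rw [h1, Matrix.invOf_eq_nonsing_inv]
        congr 1
        rw [hM22', det_diagonal]
        simp
      rw [hdet2, Fintype.prod_sum_type, mul_comm]
      simp only [Fin.prod_univ_one]
      apply mul_le_mul_of_nonneg_right _ (hd0 _)
      refine le_trans (ih _ hS) ?_
      apply Finset.prod_le_prod
      · intro i _
        exact hS.diag_nonneg
      · intro i _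
        rw [Matrix.sub_apply]
        exact sub_le_self _ hE.diag_nonneg


theorem hadamard {N : ℕ} (W : Matrix (Fin N) (Fin N) ℂ) :
    ‖W.det‖ ^ 2 ≤ ∏ i, ∑ j, ‖W i j‖ ^ 2 := by
  have hps : (W * Wᴴ).PosSemidef := Matrix.posSemidef_self_mul_conjTranspose W
  have h1 := det_le_diag N (W * Wᴴ) hps
  have h2 : (W * Wᴴ).det = ((‖W.det‖ ^ 2 : ℝ) : ℂ) := by
    rw [Matrix.det_mul, Matrix.det_conjTranspose, RCLike.star_def, Complex.mul_conj,
      Complex.normSq_eq_norm_sq]
  have h3 : ∏ i, (W * Wᴴ) i i = ((∏ i, ∑ j, ‖W i j‖ ^ 2 : ℝ) : ℂ) := by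
    rw [Complex.ofReal_prod]
    refine Finset.prod_congr rfl fun i _ => ?_
    rw [Matrix.mul_apply, Complex.ofReal_sum]
    refine Finset.sum_congr rfl fun j _ => ?_
    rw [Matrix.conjTranspose_apply, RCLike.star_def, Complex.mul_conj,
      Complex.normSq_eq_norm_sq]
  rw [h2, h3] at h1
  exact_mod_cast h1

end had

/-- holomorphy of parametric integrals of holomorphic functions, dominated version -/
theorem diffOn_int {Ω : Type*} [MeasurableSpace Ω] {U : Set ℂ} (hU : IsOpen U) (μ : Measure Ω) (F : ℂ → Ω → ℂ)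
    (B : Ω → ℝ) (hB : Integrable B μ) (hm : ∀ l ∈ U, AEStronglyMeasurable (F l) μ)
    (hd : ∀ᵐ t ∂μ, DifferentiableOn ℂ (fun l => F l t) U)
    (hb : ∀ᵐ t ∂μ, ∀ l ∈ U, ‖F l t‖ ≤ B t) :
    DifferentiableOn ℂ (fun l => ∫ t, F l t ∂μ) U := by
  intro l₀ hl₀
  obtain ⟨ρ, hρ, hball⟩ := Metric.isOpen_iff.mp hU l₀ hl₀
  set r : ℝ := ρ / 3 with hr
  have hr0 : 0 < r := by positivity
  have hsub : ∀ l ∈ Metric.ball l₀ r, Metric.closedBall l r ⊆ U := by
    intro l hl z hz
    apply hball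
    rw [Metric.mem_ball] at hl ⊢
    rw [Metric.mem_closedBall] at hz
    have := dist_triangle z l l₀
    linarith
  have hballU : Metric.ball l₀ r ⊆ U := fun l hl =>
    hsub l hl (Metric.mem_closedBall_self hr0.le)
  have hderiv : ∀ᵐ t ∂μ, ∀ l ∈ Metric.ball l₀ r,
      HasDerivAt (fun l => F l t) (deriv (fun l => F l t) l) l := by
    filter_upwards [hd] with t ht l hl
    exact ((ht l (hballU hl)).differentiableAt (hU.mem_nhds (hballU hl))).hasDerivAt
  have hbound : ∀ᵐ t ∂μ, ∀ l ∈ Metric.ball l₀ r, ‖deriv (fun l => F l t) l‖ ≤ B t / r := by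
    filter_upwards [hd, hb] with t ht hbt l hl
    apply Complex.norm_deriv_le_of_forall_mem_sphere_norm_le hr0
    · have h1 : DifferentiableOn ℂ (fun l => F l t) (Metric.closedBall l r) :=
        ht.mono (hsub l hl)
      exact h1.diffContOnCl_ball le_rfl
    · intro z hz
      exact hbt z (hsub l hl (Metric.sphere_subset_closedBall hz))
  have hl₀b : l₀ ∈ Metric.ball l₀ r := Metric.mem_ball_self hr0
  have hmeas : AEStronglyMeasurable (fun t => deriv (fun l => F l t) l₀) μ := by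
    set h : ℕ → ℂ := fun n => ((r / ((n : ℝ) + 2) : ℝ) : ℂ) with hh
    have hpos : ∀ n : ℕ, 0 < r / ((n : ℝ) + 2) := fun n => by positivity
    have hh0 : ∀ n, h n ≠ 0 := fun n => by
      have := (hpos n).ne'
      simp only [hh]
      exact_mod_cast this
    have hhU : ∀ n, l₀ + h n ∈ U := fun n => by
      apply hballU
      rw [Metric.mem_ball, dist_eq_norm, add_sub_cancel_left, hh]
      simp only
      rw [Complex.norm_real, Real.norm_eq_abs, abs_of_pos (hpos n), div_lt_iff₀ (by positivity)]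
      have : (0 : ℝ) ≤ n := Nat.cast_nonneg _
      nlinarith
    have htend : Tendsto h atTop (𝓝[≠] 0) := by
      apply tendsto_nhdsWithin_of_tendsto_nhds_of_eventually_within
      · have h1 : Tendsto (fun n : ℕ => r / ((n : ℝ) + 2)) atTop (𝓝 0) := by
          apply Tendsto.div_atTop tendsto_const_nhds
          exact tendsto_atTop_add_const_right _ _ tendsto_natCast_atTop_atTop
        have h2 := (Complex.continuous_ofReal.tendsto 0).comp h1
        rw [Complex.ofReal_zero] at h2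
        exact h2
      · exact Eventually.of_forall hh0
    apply aestronglyMeasurable_of_tendsto_ae atTop
      (f := fun n t => (h n)⁻¹ • (F (l₀ + h n) t - F l₀ t))
    · intro n
      show AEStronglyMeasurable ((h n)⁻¹ • (F (l₀ + h n) - F l₀)) μ
      exact ((hm _ (hhU n)).sub (hm _ hl₀)).const_smul _
    · filter_upwards [hderiv] with t ht
      have h1 := hasDerivAt_iff_tendsto_slope_zero.mp (ht l₀ hl₀b)
      exact h1.comp htend
  have hFint : Integrable (F l₀) μ := by
    apply Integrable.mono' hB (hm l₀ hl₀)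
    filter_upwards [hb] with t ht
    exact ht l₀ hl₀
  have hFm : ∀ᶠ l in 𝓝 l₀, AEStronglyMeasurable (F l) μ := by
    filter_upwards [hU.mem_nhds hl₀] with l hl
    exact hm l hl
  have key := hasDerivAt_integral_of_dominated_loc_of_deriv_le (μ := μ) (F := F)
    (F' := fun l t => deriv (fun l => F l t) l) (bound := fun t => B t / r)
    (Metric.ball_mem_nhds l₀ hr0) hFm hFint hmeas hbound (hB.div_const r) hderiv
  exact key.2.differentiableAt.differentiableWithinAt


/-- the entire function `sin w / w` -/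
def Sc (w : ℂ) : ℂ := dslope Complex.sin 0 w

theorem Sc_diff : Differentiable ℂ Sc := by
  have h : DifferentiableOn ℂ (dslope Complex.sin 0) Set.univ :=
    (Complex.differentiableOn_dslope (Filter.univ_mem)).2 Complex.differentiable_sin.differentiableOn
  exact differentiableOn_univ.1 h

theorem Sc_zero : Sc 0 = 1 := by
  rw [Sc, dslope_same, Complex.deriv_sin, Complex.cos_zero]

theorem Sc_real (x : ℝ) : Sc (x : ℂ) = ((Real.sinc x : ℝ) : ℂ) := by
  by_cases hx : x = 0
  · subst hx; rw [Complex.ofReal_zero, Sc_zero, Real.sinc_zero, Complex.ofReal_one]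
  · have hx' : (x : ℂ) ≠ 0 := by exact_mod_cast hx
    rw [Sc, dslope_of_ne _ hx', slope_def_field, Real.sinc_of_ne_zero hx, Complex.sin_zero,
      sub_zero, sub_zero]
    push_cast
    rfl

/-- the determinant -/
def Dt (k : ℕ) (s : ℂ) (x : Fin k → ℝ) : ℂ :=
  Matrix.det (Matrix.of fun i j => Sc (Real.pi * s * ((x i - x j : ℝ) : ℂ)))

theorem Dt_diff (k : ℕ) (x : Fin k → ℝ) : Differentiable ℂ fun s => Dt k s x := by
  unfold Dt
  simp only [Matrix.det_apply, Matrix.of_apply]
  refine Differentiable.fun_sum fun σ _ => ?_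
  refine Differentiable.const_smul ?_ _
  refine Differentiable.fun_finsetProd fun i _ => ?_
  exact Sc_diff.comp (by fun_prop)

theorem Dt_cont (k : ℕ) (s : ℂ) : Continuous fun x => Dt k s x := by
  unfold Dt
  refine Continuous.matrix_det ?_
  refine continuous_matrix fun i j => ?_
  simp only [Matrix.of_apply]
  exact Sc_diff.continuous.comp (by fun_prop)

theorem Dt_real (k : ℕ) (s : ℝ) (x : Fin k → ℝ) : Dt k s x = ((sdet (s • x) : ℝ) : ℂ) := by
  unfold Dt sdet
  rw [← Complex.coe_algebraMap, RingHom.map_det]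
  congr 1
  ext i j
  simp only [Matrix.of_apply, RingHom.mapMatrix_apply, Matrix.map_apply, Complex.coe_algebraMap,
    Pi.smul_apply, smul_eq_mul, sn]
  rw [← Sc_real]
  congr 1
  push_cast
  ring

/-- bound of `Sc` on balls -/
theorem Sc_bound (M : ℝ) : ∃ C : ℝ, 0 < C ∧ ∀ w : ℂ, ‖w‖ ≤ M → ‖Sc w‖ ≤ C := by
  obtain ⟨C, hC⟩ := (isCompact_closedBall (0 : ℂ) M).exists_bound_of_continuousOn
    Sc_diff.continuous.continuousOn
  refine ⟨max C 1, by positivity, fun w hw => (hC w ?_).trans (le_max_left _ _)⟩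
  simpa using hw

theorem Dt_bound (M : ℝ) : ∃ C : ℝ, 0 < C ∧ ∀ (k : ℕ) (s : ℂ) (x : Fin k → ℝ), ‖s‖ ≤ M →
    x ∈ Set.Icc (0 : Fin k → ℝ) 1 → ‖Dt k s x‖ ≤ (Real.sqrt k * C) ^ k := by
  obtain ⟨C, hC0, hC⟩ := Sc_bound (Real.pi * M)
  refine ⟨C, hC0, fun k s x hs hx => ?_⟩
  have hM : 0 ≤ M := (norm_nonneg s).trans hs
  have h1 := hadamard (Matrix.of fun i j => Sc (Real.pi * s * ((x i - x j : ℝ) : ℂ)) :
    Matrix (Fin k) (Fin k) ℂ)
  have h2 : ∏ i : Fin k, ∑ j : Fin k, ‖(Matrix.of fun i j => Sc (Real.pi * s *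
      ((x i - x j : ℝ) : ℂ)) : Matrix (Fin k) (Fin k) ℂ) i j‖ ^ 2 ≤ ∏ i : Fin k, (k * C ^ 2) := by
    refine Finset.prod_le_prod (fun i _ => by positivity) fun i _ => ?_
    have h3 : ∀ j ∈ (Finset.univ : Finset (Fin k)), ‖(Matrix.of fun i j => Sc (Real.pi * s *
      ((x i - x j : ℝ) : ℂ)) : Matrix (Fin k) (Fin k) ℂ) i j‖ ^ 2 ≤ C ^ 2 := by
      intro j _
      rw [Matrix.of_apply]
      refine pow_le_pow_left₀ (norm_nonneg _) (hC _ ?_) 2
      rw [norm_mul, norm_mul, Complex.norm_real, Complex.norm_real, Real.norm_eq_abs,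
        Real.norm_eq_abs, abs_of_pos Real.pi_pos]
      have h4 : |x i - x j| ≤ 1 := by
        have a1 := hx.1 i; have a2 := hx.2 i; have a3 := hx.1 j; have a4 := hx.2 j
        simp only [Pi.zero_apply, Pi.one_apply] at a1 a2 a3 a4
        rw [abs_le]; constructor <;> linarith
      calc Real.pi * ‖s‖ * |x i - x j| ≤ Real.pi * M * 1 := by
            gcongr
        _ = Real.pi * M := by ring
    refine (Finset.sum_le_sum h3).trans (le_of_eq ?_)
    rw [Finset.sum_const, Finset.card_univ, Fintype.card_fin, nsmul_eq_mul]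
  have h5 : ‖Dt k s x‖ ^ 2 ≤ ((Real.sqrt k * C) ^ k) ^ 2 := by
    refine (h1.trans h2).trans (le_of_eq ?_)
    rw [Finset.prod_const, Finset.card_univ, Fintype.card_fin, ← pow_mul, mul_comm k 2, pow_mul,
      mul_pow (Real.sqrt k) C 2, Real.sq_sqrt (Nat.cast_nonneg k)]
  exact le_of_sq_le_sq h5 (by positivity)

/-- the coefficient -/
def Gk (k : ℕ) (s : ℂ) : ℂ := ∫ x : Fin k → ℝ in Set.Icc 0 1, Dt k s x

theorem vol_cube (k : ℕ) : volume (Set.Icc (0 : Fin k → ℝ) 1) = 1 := by
  rw [Real.volume_Icc_pi]; simp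

theorem Gk_diff (k : ℕ) (M : ℝ) : DifferentiableOn ℂ (Gk k) (Metric.ball 0 M) := by
  obtain ⟨C, hC0, hC⟩ := Dt_bound M
  refine diffOn_int Metric.isOpen_ball (volume.restrict (Set.Icc (0 : Fin k → ℝ) 1))
    (fun s x => Dt k s x) (fun _ => (Real.sqrt k * C) ^ k) ?_ ?_ ?_ ?_
  · rw [integrable_const_iff]
    right
    constructor
    rw [Measure.restrict_apply_univ, vol_cube]
    exact ENNReal.one_lt_top
  · intro l _
    exact (Dt_cont k l).aestronglyMeasurable
  · exact Filter.Eventually.of_forall fun x => (Dt_diff k x).differentiableOn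
  · rw [ae_restrict_iff' measurableSet_Icc]
    refine Filter.Eventually.of_forall fun x hx l hl => hC k l x ?_ hx
    rw [Metric.mem_ball, dist_zero_right] at hl
    exact hl.le

theorem Gk_bound (M : ℝ) : ∃ C : ℝ, 0 < C ∧ ∀ (k : ℕ) (s : ℂ), ‖s‖ ≤ M →
    ‖Gk k s‖ ≤ (Real.sqrt k * C) ^ k := by
  obtain ⟨C, hC0, hC⟩ := Dt_bound M
  refine ⟨C, hC0, fun k s hs => ?_⟩
  have h := norm_setIntegral_le_of_norm_le_const (μ := volume) (s := Set.Icc (0 : Fin k → ℝ) 1)
    (f := fun x => Dt k s x) (C := (Real.sqrt k * C) ^ k)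
    (by rw [vol_cube]; exact ENNReal.one_lt_top) (fun x hx => hC k s x hs hx)
  rw [Measure.real, vol_cube, ENNReal.toReal_one, mul_one] at h
  exact h

theorem summ (A : ℝ) (hA : 0 ≤ A) : Summable fun k : ℕ => (Real.sqrt k * A) ^ k / (k.factorial : ℝ) := by
  have hg : Summable fun k : ℕ => ((1 : ℝ) / 2) ^ k := summable_geometric_two
  obtain ⟨K, hK⟩ := exists_nat_ge ((2 * A * Real.exp 1) ^ 2)
  refine Summable.of_norm_bounded_eventually_nat hg ?_
  filter_upwards [Filter.eventually_ge_atTop (K + 1)] with k hk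
  have hk0 : (0 : ℝ) < k := by exact_mod_cast (by omega : 0 < k)
  have hs0 : 0 < Real.sqrt k := Real.sqrt_pos.2 hk0
  have h1 : 2 * A * Real.exp 1 ≤ Real.sqrt k := by
    apply Real.le_sqrt_of_sq_le
    refine hK.trans ?_
    exact_mod_cast (by omega : K ≤ k)
  have hf : (0 : ℝ) < k.factorial := by exact_mod_cast k.factorial_pos
  rw [Real.norm_of_nonneg (by positivity)]
  have h2 : (k : ℝ) ^ k / (k.factorial : ℝ) ≤ Real.exp 1 ^ k := by
    have := Real.pow_div_factorial_le_exp (x := (k : ℝ)) hk0.le k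
    rwa [← Real.exp_nat_mul, mul_one]
  have h3 : Real.sqrt k * A = A / Real.sqrt k * k := by
    field_simp
    rw [Real.sq_sqrt hk0.le]
    ring
  rw [h3, mul_pow, mul_div_assoc]
  calc (A / Real.sqrt k) ^ k * ((k : ℝ) ^ k / (k.factorial : ℝ))
      ≤ (A / Real.sqrt k) ^ k * Real.exp 1 ^ k := by gcongr
    _ = (A * Real.exp 1 / Real.sqrt k) ^ k := by rw [← mul_pow]; congr 1; ring
    _ ≤ (1 / 2) ^ k := by
        refine pow_le_pow_left₀ (by positivity) ?_ k
        rw [div_le_div_iff₀ hs0 (by norm_num)]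
        linarith

/-- the terms of the series -/
def Tk (k : ℕ) (s : ℂ) : ℂ := (-1) ^ k / (k.factorial : ℂ) * (s ^ k * Gk k s)

theorem Tk_diff (k : ℕ) (M : ℝ) : DifferentiableOn ℂ (Tk k) (Metric.ball 0 M) := by
  unfold Tk
  exact ((differentiableOn_pow k).mul (Gk_diff k M)).const_mul _

theorem Tk_bound (M : ℝ) (hM : 0 ≤ M) : ∃ A : ℝ, 0 ≤ A ∧ ∀ (k : ℕ) (s : ℂ), ‖s‖ ≤ M →
    ‖Tk k s‖ ≤ (Real.sqrt k * A) ^ k / (k.factorial : ℝ) := by
  obtain ⟨C, hC0, hC⟩ := Gk_bound M
  refine ⟨C * M, by positivity, fun k s hs => ?_⟩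
  unfold Tk
  have hf : (0 : ℝ) < k.factorial := by exact_mod_cast k.factorial_pos
  rw [norm_mul, norm_mul, norm_div, norm_pow, norm_pow, norm_neg, norm_one, one_pow,
    Complex.norm_natCast]
  calc 1 / (k.factorial : ℝ) * (‖s‖ ^ k * ‖Gk k s‖)
      ≤ 1 / (k.factorial : ℝ) * (M ^ k * (Real.sqrt k * C) ^ k) := by
        gcongr
        exact hC k s hs
    _ = (Real.sqrt k * (C * M)) ^ k / (k.factorial : ℝ) := by
        rw [← mul_pow]
        have : M * (Real.sqrt k * C) = Real.sqrt k * (C * M) := by ring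
        rw [this]; ring

/-- the entire function -/
def Fc (s : ℂ) : ℂ := ∑' k : ℕ, Tk k s

theorem Fc_diff : Differentiable ℂ Fc := by
  intro s
  obtain ⟨A, hA, hb⟩ := Tk_bound (‖s‖ + 1) (by positivity)
  have h := Complex.differentiableOn_tsum_of_summable_norm (summ A hA)
    (F := Tk) (U := Metric.ball 0 (‖s‖ + 1)) (fun k => Tk_diff k _) Metric.isOpen_ball
    (fun k w hw => hb k w (by rw [Metric.mem_ball, dist_zero_right] at hw; exact hw.le))
  refine (h s ?_).differentiableAt (Metric.isOpen_ball.mem_nhds ?_) <;>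
    (rw [Metric.mem_ball, dist_zero_right]; linarith)

theorem Gk_real (k : ℕ) (s : ℝ) :
    Gk k s = ((∫ x : Fin k → ℝ in Set.Icc 0 1, sdet (s • x) : ℝ) : ℂ) := by
  unfold Gk
  have h := integral_ofReal (𝕜 := ℂ) (μ := volume.restrict (Set.Icc (0 : Fin k → ℝ) 1))
    (f := fun x : Fin k → ℝ => sdet (s • x))
  refine Eq.trans ?_ h
  exact integral_congr_ae (Filter.Eventually.of_forall fun x => Dt_real k s x)

theorem term_real (k : ℕ) (s : ℝ) (hs : 0 ≤ s) :
    s ^ k * (∫ x : Fin k → ℝ in Set.Icc 0 1, sdet (s • x)) =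
      ∫ x : Fin k → ℝ in Set.Icc (fun _ => 0) (fun _ => s), sdet x := by
  rcases hs.eq_or_lt with h0 | hpos
  · subst h0
    rcases Nat.eq_zero_or_pos k with hk | hk
    · subst hk
      rw [pow_zero, one_mul]
      have e : (Set.Icc 0 1 : Set (Fin 0 → ℝ)) = Set.Icc (fun _ => 0) (fun _ => 0) := by
        ext x; simp only [Set.mem_Icc, Pi.le_def]
        constructor <;> intro _ <;> exact ⟨fun i => i.elim0, fun i => i.elim0⟩
      rw [e]
      refine integral_congr_ae (Filter.Eventually.of_forall fun x => ?_)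
      show sdet ((0 : ℝ) • x) = sdet x
      congr 1
      exact Subsingleton.elim _ _
    · rw [zero_pow hk.ne', zero_mul]
      symm
      apply setIntegral_measure_zero
      rw [Real.volume_Icc_pi]
      simp only [sub_self, ENNReal.ofReal_zero]
      exact Finset.prod_eq_zero (Finset.mem_univ ⟨0, hk⟩) rfl
  · have h := Measure.setIntegral_comp_smul_of_pos (volume : Measure (Fin k → ℝ)) (fun x => sdet x)
      (Set.Icc 0 1) hpos
    rw [h, Module.finrank_pi, Fintype.card_fin, smul_eq_mul, ← mul_assoc,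
      mul_inv_cancel₀ (pow_pos hpos k).ne', one_mul]
    have e : s • (Set.Icc 0 1 : Set (Fin k → ℝ)) = Set.Icc (fun _ => 0) (fun _ => s) := by
      ext x
      rw [Set.mem_smul_set_iff_inv_smul_mem₀ hpos.ne']
      simp only [Set.mem_Icc, Pi.le_def, Pi.smul_apply, Pi.zero_apply, Pi.one_apply, smul_eq_mul]
      constructor
      · rintro ⟨h1, h2⟩
        refine ⟨fun i => ?_, fun i => ?_⟩
        · have := h1 i
          rwa [le_inv_mul_iff₀ hpos, mul_zero] at this
        · have := h2 i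
          rwa [inv_mul_le_iff₀ hpos, mul_one] at this
      · rintro ⟨h1, h2⟩
        refine ⟨fun i => ?_, fun i => ?_⟩
        · rw [le_inv_mul_iff₀ hpos, mul_zero]; exact h1 i
        · rw [inv_mul_le_iff₀ hpos, mul_one]; exact h2 i
    rw [e]

theorem Fc_real (s : ℝ) (hs : 0 ≤ s) : Fc s = ((EG s : ℝ) : ℂ) := by
  unfold Fc EG
  rw [Complex.ofReal_tsum]
  refine tsum_congr fun k => ?_
  unfold Tk
  rw [Gk_real, ← term_real k s hs]
  push_cast
  ring

theorem Tk_zero (s : ℂ) : Tk 0 s = 1 := by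
  unfold Tk Gk Dt
  simp only [Matrix.det_fin_zero, setIntegral_const, Measure.real, vol_cube]
  simp

theorem Tk_one (s : ℂ) : Tk 1 s = -s := by
  unfold Tk Gk Dt
  simp only [Matrix.det_unique, Matrix.of_apply, sub_self, Complex.ofReal_zero, mul_zero, Sc_zero,
    setIntegral_const, Measure.real, vol_cube]
  simp

theorem Fc_zero_bound : ∃ K : ℝ, ∀ s : ℂ, ‖s‖ ≤ 1 → ‖Fc s - (1 - s)‖ ≤ K * ‖s‖ ^ 2 := by
  obtain ⟨C, hC0, hC⟩ := Gk_bound 1
  have hsum := summ C hC0.le
  have hsum2 : Summable fun k : ℕ => (Real.sqrt (k + 2 : ℕ) * C) ^ (k + 2) / ((k + 2).factorial : ℝ) :=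
    (summable_nat_add_iff 2).2 hsum
  refine ⟨∑' k : ℕ, (Real.sqrt (k + 2 : ℕ) * C) ^ (k + 2) / ((k + 2).factorial : ℝ), fun s hs => ?_⟩
  have hT : ∀ k, ‖Tk (k + 2) s‖ ≤ (Real.sqrt (k + 2 : ℕ) * C) ^ (k + 2) /
      ((k + 2).factorial : ℝ) * ‖s‖ ^ 2 := by
    intro k
    unfold Tk
    have hf : (0 : ℝ) < (k + 2).factorial := by exact_mod_cast (k + 2).factorial_pos
    rw [norm_mul, norm_mul, norm_div, norm_pow, norm_pow, norm_neg, norm_one, one_pow,
      Complex.norm_natCast]
    have h1 : ‖s‖ ^ (k + 2) ≤ ‖s‖ ^ 2 := pow_le_pow_of_le_one (norm_nonneg _) hs (by omega)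
    calc 1 / ((k + 2).factorial : ℝ) * (‖s‖ ^ (k + 2) * ‖Gk (k + 2) s‖)
        ≤ 1 / ((k + 2).factorial : ℝ) * (‖s‖ ^ 2 * (Real.sqrt (k + 2 : ℕ) * C) ^ (k + 2)) := by
          gcongr
          exact hC _ s hs
      _ = _ := by ring
  have hsT : Summable fun k => Tk (k + 2) s :=
    Summable.of_norm_bounded (hsum2.mul_right (‖s‖ ^ 2)) hT
  have hsT0 : Summable fun k => Tk k s := (summable_nat_add_iff 2).1 hsT
  have e : Fc s - (1 - s) = ∑' k, Tk (k + 2) s := by
    unfold Fc
    rw [← hsT0.sum_add_tsum_nat_add 2, Finset.sum_range_succ, Finset.sum_range_one, Tk_zero, Tk_one]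
    ring
  rw [e]
  refine (tsum_of_norm_bounded ((hsum2.mul_right (‖s‖ ^ 2)).hasSum) hT).trans (le_of_eq ?_)
  rw [tsum_mul_right]

theorem t_EREG : S_EREG := by
  refine ⟨fun s : ℝ => (Fc s).re, ?_, ?_, ?_⟩
  · have h1 : ContDiff ℂ 2 Fc := Fc_diff.contDiff
    have h2 : ContDiff ℝ 2 Fc := h1.restrict_scalars ℝ
    exact Complex.reCLM.contDiff.comp (h2.comp Complex.ofRealCLM.contDiff)
  · intro s hs
    show EG s = (Fc s).re
    rw [Fc_real s hs, Complex.ofReal_re]
  · obtain ⟨K, hK⟩ := Fc_zero_bound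
    have h1 : HasFDerivAt (fun s : ℝ => (Fc s).re - (1 - s)) (0 : ℝ →L[ℝ] ℝ) 0 := by
      apply Asymptotics.IsBigO.hasFDerivAt (n := 2) _ (by norm_num)
      apply Asymptotics.IsBigO.of_bound K
      filter_upwards [Metric.closedBall_mem_nhds (0 : ℝ) one_pos] with s hs
      rw [Metric.mem_closedBall, dist_zero_right] at hs
      have h2 := hK s (by rw [Complex.norm_real]; exact hs)
      have h3 : (Fc s).re - (1 - s) = (Fc s - (1 - s)).re := by simp
      rw [h3, sub_zero, Real.norm_of_nonneg (by positivity : (0 : ℝ) ≤ ‖s‖ ^ 2)]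
      refine (Complex.abs_re_le_norm _).trans (h2.trans (le_of_eq ?_))
      rw [Complex.norm_real]
    have h2 : HasDerivAt (fun s : ℝ => (Fc s).re - (1 - s)) 0 0 := by
      simpa using h1.hasDerivAt
    have h3 : HasDerivAt (fun s : ℝ => (1 - s)) (-1) 0 := by
      simpa using (hasDerivAt_id (0 : ℝ)).const_sub 1
    have h4 := h2.add h3
    have h5 : ((fun s : ℝ => (Fc s).re - (1 - s)) + fun s : ℝ => (1 - s)) =
        fun s : ℝ => (Fc s).re := by
      funext s; simp
    rw [h5] at h4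
    rw [h4.deriv]; norm_num

end

end Pool.Agent.Y185.SR
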